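import Pool.Agent.H304R3.HK.Defs

/-!
Project QI, leaf EC: the character modulo `2 + 2 i` which is one at the primary elements.
-/

set_option autoImplicit false

open Complex
open Pool.Agent.H304R3.HK (tc HC)

namespace Pool.Agent.N768.QI

/-- the values of the character, depending on the residues modulo `4` -/
def g4 (a b : ZMod 4) : GaussianInt :=
  if (a = 1 ∧ b = 0) ∨ (a = 3 ∧ b = 2) then 1
  else if (a = 3 ∧ b = 0) ∨ (a = 1 ∧ b = 2) then -1
  else if (a = 0 ∧ b = 1) ∨ (a = 2 ∧ b = 3) then ⟨0, -1⟩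
  else if (a = 0 ∧ b = 3) ∨ (a = 2 ∧ b = 1) then ⟨0, 1⟩
  else 0

theorem g4_mul : ∀ a b c d : ZMod 4,
    g4 (a * c - b * d) (a * d + b * c) = g4 a b * g4 c d := by
  decide +kernel

theorem g4_per : ∀ a b : ZMod 4, g4 (a + 2) (b + 2) = g4 a b := by
  decide +kernel

theorem g4_zero : ∀ a b : ZMod 4, g4 a b = 0 ↔ a + b = 0 ∨ a + b = 2 := by
  decide +kernel

theorem g4_norm : ∀ a b : ZMod 4, g4 a b ≠ 0 → (g4 a b).norm = 1 := by
  decide +kernel

theorem tc_mul' (a b : GaussianInt) : tc (a * b) = tc a * tc b := by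
  unfold tc
  rw [Zsqrtd.re_mul, Zsqrtd.im_mul]
  push_cast
  linear_combination (-(a.im : ℂ) * b.im) * Complex.I_sq

/-- the character -/
noncomputable def psi0 : GaussianInt →* ℂ where
  toFun a := tc (g4 (a.re : ZMod 4) (a.im : ZMod 4))
  map_one' := by
    have : g4 (((1 : GaussianInt).re : ℤ) : ZMod 4) (((1 : GaussianInt).im : ℤ) : ZMod 4) = 1 := by
      decide
    rw [this]
    simp [tc]
  map_mul' := by
    intro a b
    rw [← tc_mul', ← g4_mul, Zsqrtd.re_mul, Zsqrtd.im_mul]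
    congr 2
    · push_cast; ring
    · push_cast; ring

theorem psi0_apply (a : GaussianInt) :
    psi0 a = tc (g4 (a.re : ZMod 4) (a.im : ZMod 4)) := rfl

theorem tc_re (a : GaussianInt) : (tc a).re = a.re := by
  unfold tc
  rw [Complex.add_re, Complex.mul_re, Complex.intCast_re, Complex.intCast_re, Complex.intCast_im,
    Complex.I_re, Complex.I_im]
  ring

theorem tc_im (a : GaussianInt) : (tc a).im = a.im := by
  unfold tc
  rw [Complex.add_im, Complex.mul_im, Complex.intCast_re, Complex.intCast_im, Complex.intCast_im,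
    Complex.I_re, Complex.I_im]
  ring

theorem tc_ne' {a : GaussianInt} (h : a ≠ 0) : tc a ≠ 0 := by
  intro h0
  apply h
  have h1 := congrArg Complex.re h0
  have h2 := congrArg Complex.im h0
  rw [tc_re, Complex.zero_re] at h1
  rw [tc_im, Complex.zero_im] at h2
  ext
  · rw [Zsqrtd.re_zero]; exact_mod_cast h1
  · rw [Zsqrtd.im_zero]; exact_mod_cast h2

theorem norm_tc' {a : GaussianInt} (h : a.norm = 1) : ‖tc a‖ = 1 := by
  have h1 : ‖tc a‖ ^ 2 = 1 := by
    rw [← Complex.normSq_eq_norm_sq, Complex.normSq_apply, tc_re, tc_im]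
    rw [Zsqrtd.norm_def] at h
    have h2 : ((a.re * a.re - -1 * a.im * a.im : ℤ) : ℝ) = 1 := by exact_mod_cast h
    push_cast at h2
    linarith
  rcases (sq_eq_one_iff.1 h1) with h3 | h3
  · exact h3
  · have := norm_nonneg (tc a)
    linarith

/-- the modulus -/
def q0 : GaussianInt := ⟨2, 2⟩

theorem psi0_per {a b : GaussianInt} (h : q0 ∣ a - b) : psi0 a = psi0 b := by
  obtain ⟨c, hc⟩ := h
  rw [psi0_apply, psi0_apply]
  congr 1
  have ha : a = b + q0 * c := by rw [← hc]; ring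
  have h1 : ((a.re : ℤ) : ZMod 4) = (b.re : ZMod 4) + 2 * ((c.re : ZMod 4) + (c.im : ZMod 4)) := by
    rw [ha, Zsqrtd.re_add, Zsqrtd.re_mul]
    unfold q0
    push_cast
    have : (-1 * 2 : ZMod 4) = 2 := by decide
    linear_combination ((c.im : ℤ) : ZMod 4) * this
  have h2 : ((a.im : ℤ) : ZMod 4) = (b.im : ZMod 4) + 2 * ((c.re : ZMod 4) + (c.im : ZMod 4)) := by
    rw [ha, Zsqrtd.im_add, Zsqrtd.im_mul]
    unfold q0
    push_cast
    ring
  rw [h1, h2]
  have h3 : ∀ x y t : ZMod 4, g4 (x + 2 * t) (y + 2 * t) = g4 x y := by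
    decide +kernel
  exact h3 _ _ _

theorem psi0_ne_iff (a : GaussianInt) : psi0 a ≠ 0 ↔ ¬ (2 : ℤ) ∣ a.re + a.im := by
  have h1 : psi0 a ≠ 0 ↔ g4 (a.re : ZMod 4) (a.im : ZMod 4) ≠ 0 := by
    rw [psi0_apply]
    constructor
    · intro h h0
      apply h
      rw [h0]
      simp [tc]
    · exact tc_ne'
  rw [h1, Ne, g4_zero, not_iff_not]
  have h2 : (((a.re + a.im : ℤ)) : ZMod 4) = (a.re : ZMod 4) + (a.im : ZMod 4) := by push_cast; ring
  rw [← h2]
  constructor
  · rintro (h | h)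
    · rw [ZMod.intCast_zmod_eq_zero_iff_dvd] at h
      exact (by norm_num : (2 : ℤ) ∣ ((4 : ℕ) : ℤ)).trans h
    · have h3 : (((a.re + a.im - 2 : ℤ)) : ZMod 4) = 0 := by
        push_cast
        push_cast at h
        rw [h]; ring
      rw [ZMod.intCast_zmod_eq_zero_iff_dvd] at h3
      push_cast at h3
      omega
  · intro h
    have h4 : (4 : ℤ) ∣ (a.re + a.im) ∨ (4 : ℤ) ∣ (a.re + a.im - 2) := by omega
    rcases h4 with h5 | h5
    · left
      rw [ZMod.intCast_zmod_eq_zero_iff_dvd]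
      exact_mod_cast h5
    · right
      have h3 : (((a.re + a.im - 2 : ℤ)) : ZMod 4) = 0 := by
        rw [ZMod.intCast_zmod_eq_zero_iff_dvd]
        exact_mod_cast h5
      push_cast at h3 ⊢
      linear_combination h3

theorem coprime_iff (a : GaussianInt) : IsCoprime a q0 ↔ ¬ (2 : ℤ) ∣ a.re + a.im := by
  constructor
  · rintro ⟨x, y, h⟩ h2
    have h3 := congrArg Zsqrtd.re h
    have h4 := congrArg Zsqrtd.im h
    rw [Zsqrtd.re_add, Zsqrtd.re_mul, Zsqrtd.re_mul] at h3
    rw [Zsqrtd.im_add, Zsqrtd.im_mul, Zsqrtd.im_mul] at h4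
    unfold q0 at h3 h4
    simp only [Zsqrtd.re_one, Zsqrtd.im_one] at h3 h4
    obtain ⟨t, ht⟩ := h2
    have h5 : a.im = 2 * t - a.re := by omega
    rw [h5] at h3 h4
    have h6 : x.re * a.re + -1 * x.im * (2 * t - a.re) + (y.re * 2 + -1 * y.im * 2) +
        (x.re * (2 * t - a.re) + x.im * a.re + (y.re * 2 + y.im * 2)) = 1 + 0 := by
      rw [h3, h4]
    have h7 : 2 * (x.re * t + x.im * (a.re - t) + 2 * y.re) = 1 := by linear_combination h6
    omega
  · intro h
    -- `a` is congruent to a unit modulo `q0`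
    have key : ∃ u v : GaussianInt, u * v = 1 ∧ q0 ∣ a - u := by
      have hd : ∀ c d : ℤ, (4 : ℤ) ∣ c + d → (4 : ℤ) ∣ d - c →
          q0 ∣ (⟨c, d⟩ : GaussianInt) := by
        intro c d h1 h2
        refine ⟨⟨(c + d) / 4, (d - c) / 4⟩, ?_⟩
        ext
        · rw [Zsqrtd.re_mul]; simp only [q0]; omega
        · rw [Zsqrtd.im_mul]; simp only [q0]; omega
      obtain ⟨x, y⟩ := a
      simp only at h
      have h4 : (4 ∣ (x - 1) + y ∧ 4 ∣ y - (x - 1)) ∨ (4 ∣ (x + 1) + y ∧ 4 ∣ y - (x + 1)) ∨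
          (4 ∣ x + (y - 1) ∧ 4 ∣ (y - 1) - x) ∨ (4 ∣ x + (y + 1) ∧ 4 ∣ (y + 1) - x) := by omega
      rcases h4 with h5 | h5 | h5 | h5
      · refine ⟨1, 1, by decide, ?_⟩
        have e : (⟨x, y⟩ : GaussianInt) - 1 = ⟨x - 1, y⟩ := by ext <;> simp
        rw [e]; exact hd _ _ h5.1 h5.2
      · refine ⟨-1, -1, by decide, ?_⟩
        have e : (⟨x, y⟩ : GaussianInt) - -1 = ⟨x + 1, y⟩ := by ext <;> simp
        rw [e]; exact hd _ _ h5.1 h5.2
      · refine ⟨⟨0, 1⟩, ⟨0, -1⟩, by decide, ?_⟩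
        have e : (⟨x, y⟩ : GaussianInt) - ⟨0, 1⟩ = ⟨x, y - 1⟩ := by ext <;> simp
        rw [e]; exact hd _ _ h5.1 h5.2
      · refine ⟨⟨0, -1⟩, ⟨0, 1⟩, by decide, ?_⟩
        have e : (⟨x, y⟩ : GaussianInt) - ⟨0, -1⟩ = ⟨x, y + 1⟩ := by ext <;> simp
        rw [e]; exact hd _ _ h5.1 h5.2
    obtain ⟨u, v, huv, c, hc⟩ := key
    exact ⟨v, -(c * v), by linear_combination v * hc + huv⟩

theorem norm_psi0 {a : GaussianInt} (h : psi0 a ≠ 0) : ‖psi0 a‖ = 1 := by
  rw [psi0_apply] at h ⊢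
  apply norm_tc'
  apply g4_norm
  intro h0
  apply h
  rw [h0]
  simp [tc]

theorem hc_psi0 : HC q0 psi0 where
  q0 := by decide
  per := fun a b h => psi0_per h
  supp := by
    intro a
    rw [psi0_ne_iff, coprime_iff]
  nrm := by
    intro a ha
    rw [coprime_iff, ← psi0_ne_iff] at ha
    exact norm_psi0 ha
  unit := by
    rw [psi0_apply]
    have : g4 (((⟨0, 1⟩ : GaussianInt).re : ℤ) : ZMod 4) (((⟨0, 1⟩ : GaussianInt).im : ℤ) : ZMod 4)
      = ⟨0, -1⟩ := by decide
    rw [this]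
    simp [tc]
  prim := by
    intro d hd hqd
    refine ⟨-1, ?_, ?_, ?_⟩
    · exact ⟨-1, 0, by ring⟩
    · have h2 : d ∣ 2 := by
        obtain ⟨e, he⟩ := hd
        have hnorm : d.norm * e.norm = 8 := by
          rw [← Zsqrtd.norm_mul, ← he]; decide
        have hd0 := GaussianInt.norm_nonneg d
        have he0 := GaussianInt.norm_nonneg e
        have he1 : e.norm ≠ 1 := by
          intro h1
          apply hqd
          have h3 : IsUnit e := by
            rw [← Zsqrtd.norm_eq_one_iff, h1]; rfl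
          obtain ⟨u, rfl⟩ := h3
          exact ⟨((u⁻¹ : GaussianIntˣ) : GaussianInt), by rw [he, mul_assoc, Units.mul_inv, mul_one]⟩
        have he2 : (2 : ℤ) ∣ e.norm := by
          by_contra h3
          have h4 : IsCoprime (e.norm) (2 : ℤ) := by
            exact (Int.prime_two.coprime_iff_not_dvd.2 h3).symm
          have h5 : e.norm ∣ 8 := ⟨d.norm, by rw [mul_comm]; exact hnorm.symm⟩
          have h6 : e.norm ∣ 1 := by
            have h7 : IsCoprime (e.norm) ((2 : ℤ) ^ 3) := h4.pow_right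
            exact h7.dvd_of_dvd_mul_left (by rw [mul_one]; exact h5)
          exact he1 (Int.eq_one_of_dvd_one he0 h6)
        -- `1 + i` divides `e`
        have he3 : (2 : ℤ) ∣ e.re + e.im := by
          rw [Zsqrtd.norm_def] at he2
          have h3 : (2 : ℤ) ∣ (e.re + e.im) ^ 2 := by
            have : (e.re + e.im) ^ 2 = (e.re * e.re - -1 * e.im * e.im) + 2 * (e.re * e.im) := by
              ring
            rw [this]
            exact dvd_add he2 (dvd_mul_right _ _)
          exact Int.prime_two.dvd_of_dvd_pow h3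
        obtain ⟨t, ht⟩ := he3
        have he4 : e = ⟨1, 1⟩ * ⟨t, t - e.re⟩ := by
          ext
          · rw [Zsqrtd.re_mul]; simp only; ring
          · rw [Zsqrtd.im_mul]; simp only; linarith
        refine ⟨⟨t, t - e.re⟩, ?_⟩
        have h8 : (⟨1, 1⟩ : GaussianInt) * 2 = ⟨1, 1⟩ * (d * ⟨t, t - e.re⟩) := by
          have h9 : (⟨1, 1⟩ : GaussianInt) * 2 = q0 := by decide
          rw [h9, he]
          nth_rewrite 1 [he4]
          ring
        exact mul_left_cancel₀ (by decide) h8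
      have h3 : (-1 - 1 : GaussianInt) = -2 := by ring
      rw [h3]
      exact (dvd_neg).2 h2
    · rw [psi0_apply]
      have : g4 (((-1 : GaussianInt).re : ℤ) : ZMod 4) (((-1 : GaussianInt).im : ℤ) : ZMod 4)
        = -1 := by decide
      rw [this]
      intro h
      have h1 := congrArg Complex.re h
      unfold tc at h1
      simp at h1
      norm_num at h1

theorem psi0_prim {z : GaussianInt} (h : q0 ∣ z - 1) : psi0 z = 1 := by
  rw [psi0_per h, map_one]

end Pool.Agent.N768.QI
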