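import Mathlib

/-!
Project QI, leaf EC: splitting of the odd Gaussian primes in a quadratic extension of `ℚ(i)`.
-/

set_option autoImplicit false

open NumberField IsDedekindDomain

namespace Pool.Agent.N768.QI

/-- `ℤ[i]` is free of rank two -/
def giEquiv : GaussianInt ≃+ (ℤ × ℤ) where
  toFun z := (z.re, z.im)
  invFun p := ⟨p.1, p.2⟩
  left_inv z := by cases z; rfl
  right_inv p := rfl
  map_add' a b := by
    simp only [Zsqrtd.re_add, Zsqrtd.im_add, Prod.mk_add_mk]

theorem gi_free : Module.Free ℤ GaussianInt :=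
  Module.Free.of_equiv giEquiv.toIntLinearEquiv.symm

theorem gi_finite : Module.Finite ℤ GaussianInt :=
  Module.Finite.equiv giEquiv.toIntLinearEquiv.symm

theorem gi_rank : Module.finrank ℤ GaussianInt = 2 := by
  rw [giEquiv.toIntLinearEquiv.finrank_eq, Module.finrank_prod, Module.finrank_self]

section
variable {K : Type} [Field K] [NumberField K] (ι : GaussianInt →+* 𝓞 K)

theorem iota_inj : Function.Injective ι := by
  rw [injective_iff_map_eq_zero]
  intro a ha
  by_contra h0
  have h1 : ((a.norm : ℤ) : 𝓞 K) = 0 := by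
    have h2 : ((a.norm : ℤ) : GaussianInt) = a * star a := Zsqrtd.norm_eq_mul_conj a
    rw [← map_intCast ι, h2, map_mul, ha, zero_mul]
  rw [Int.cast_eq_zero] at h1
  exact h0 (GaussianInt.norm_eq_zero.1 h1)

/-- `𝓞 K` is free of rank two over `ℤ[i]` -/
theorem rank2 (hK : Module.finrank ℚ K = 4) :
    (∃ e : 𝓞 K ≃+ (Fin 2 → GaussianInt), ∀ a x i, e (ι a * x) i = a * e x i) ∧
    ∀ γ : 𝓞 K, ∃ t D : GaussianInt, γ ^ 2 = ι t * γ - ι D := by
  let _ : Algebra GaussianInt (𝓞 K) := ι.toAlgebra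
  have hi : Function.Injective (algebraMap GaussianInt (𝓞 K)) := iota_inj ι
  have hfi := gi_finite
  have hfr := gi_free
  have : IsScalarTower ℤ GaussianInt (𝓞 K) := by
    constructor
    intro n a x
    rw [Algebra.smul_def (n • a) x, Algebra.smul_def a x, zsmul_eq_mul, zsmul_eq_mul, map_mul,
      map_intCast, mul_assoc]
  have : Module.Finite GaussianInt (𝓞 K) := Module.Finite.of_restrictScalars_finite ℤ _ _
  have : Module.IsTorsionFree GaussianInt (𝓞 K) := by
    constructor
    intro a ha x y hxy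
    simp only at hxy
    rw [Algebra.smul_def, Algebra.smul_def] at hxy
    refine mul_left_cancel₀ ?_ hxy
    intro h0
    have h1 : a = 0 := hi (by rw [h0, map_zero])
    exact ha.ne_zero h1
  have hfree : Module.Free GaussianInt (𝓞 K) := Module.free_of_finite_type_torsion_free'
  have hr : Module.finrank GaussianInt (𝓞 K) = 2 := by
    have h1 := Module.finrank_mul_finrank ℤ GaussianInt (𝓞 K)
    rw [gi_rank, RingOfIntegers.rank, hK] at h1
    omega
  let b : Module.Basis (Fin 2) GaussianInt (𝓞 K) := Module.finBasisOfFinrankEq _ _ hr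
  refine ⟨⟨b.equivFun.toAddEquiv, ?_⟩, ?_⟩
  · intro a x i
    have h1 : ι a * x = a • x := (Algebra.smul_def a x).symm
    show b.equivFun (ι a * x) i = a * b.equivFun x i
    rw [h1, map_smul, Pi.smul_apply, smul_eq_mul]
  · intro γ
    let M := Algebra.leftMulMatrix b γ
    refine ⟨M.trace, M.det, ?_⟩
    have h1 := Matrix.aeval_self_charpoly M
    rw [Matrix.charpoly_fin_two] at h1
    have h2 : Algebra.leftMulMatrix b (Polynomial.aeval γ
        (Polynomial.X ^ 2 - Polynomial.C M.trace * Polynomial.X + Polynomial.C M.det)) = 0 := by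
      rw [← Polynomial.aeval_algHom_apply]
      exact h1
    have h3 := (injective_iff_map_eq_zero _).1 (Algebra.leftMulMatrix_injective b) _ h2
    simp only [map_add, map_sub, map_mul, map_pow, Polynomial.aeval_X, Polynomial.aeval_C] at h3
    have h4 : ∀ a : GaussianInt, algebraMap GaussianInt (𝓞 K) a = ι a := fun a => rfl
    rw [h4, h4] at h3
    linear_combination h3

/-- number of residue classes modulo `z` -/
noncomputable def qn (z : GaussianInt) : ℕ := Nat.card (GaussianInt ⧸ Ideal.span {z})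

theorem absNorm_card (I : Ideal (𝓞 K)) : Ideal.absNorm I = Nat.card (𝓞 K ⧸ I) := by
  rw [Ideal.absNorm_apply, Submodule.cardQuot_apply]

/-- the norm of `(z)` -/
theorem absNorm_span (hK : Module.finrank ℚ K = 4) (z : GaussianInt) :
    Ideal.absNorm (Ideal.span {ι z}) = qn z ^ 2 := by
  obtain ⟨⟨e, he⟩, -⟩ := rank2 ι hK
  let F : 𝓞 K →+ (Fin 2 → GaussianInt ⧸ Ideal.span {z}) :=
    { toFun := fun x i => Ideal.Quotient.mk (Ideal.span {z}) (e x i)
      map_zero' := by
        funext i
        rw [map_zero]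
        simp
      map_add' := by
        intro x y
        funext i
        rw [map_add]
        simp }
  have hF : ∀ x i, F x i = Ideal.Quotient.mk (Ideal.span {z}) (e x i) := fun x i => rfl
  have hsurj : Function.Surjective F := by
    intro y
    choose w hw using fun i => Ideal.Quotient.mk_surjective (y i)
    refine ⟨e.symm w, ?_⟩
    funext i
    rw [hF, e.apply_symm_apply, hw]
  have hker : F.ker = (Ideal.span {ι z}).toAddSubgroup := by
    ext x
    rw [AddMonoidHom.mem_ker]
    constructor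
    · intro h
      have h1 : ∀ i, ∃ c, e x i = z * c := by
        intro i
        have h2 : F x i = 0 := by rw [h]; rfl
        rw [hF, Ideal.Quotient.eq_zero_iff_mem, Ideal.mem_span_singleton] at h2
        exact h2
      choose c hc using h1
      have h3 : x = ι z * e.symm c := by
        apply e.injective
        funext i
        rw [he, e.apply_symm_apply]
        exact hc i
      show x ∈ Ideal.span {ι z}
      rw [Ideal.mem_span_singleton]
      exact ⟨_, h3⟩
    · intro h
      have h1 : x ∈ Ideal.span {ι z} := h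
      rw [Ideal.mem_span_singleton] at h1
      obtain ⟨y, rfl⟩ := h1
      funext i
      rw [hF, he, Pi.zero_apply, Ideal.Quotient.eq_zero_iff_mem, Ideal.mem_span_singleton]
      exact dvd_mul_right _ _
  have h1 : Ideal.absNorm (Ideal.span {ι z}) = (Ideal.span {ι z}).toAddSubgroup.index := rfl
  rw [h1, ← hker, AddSubgroup.index_ker, AddMonoidHom.range_eq_top.2 hsurj, AddSubgroup.card_top,
    Nat.card_fun]
  simp [qn]

/-- the norm of an ideal containing `z` -/
theorem absNorm_pow {z : GaussianInt} (hz : Prime z) (I : Ideal (𝓞 K)) (h : ι z ∈ I)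
    (hI : I ≠ ⊤) : ∃ d : ℕ, d ≠ 0 ∧ Ideal.absNorm I = qn z ^ d := by
  have hmax : (Ideal.span {z}).IsMaximal :=
    PrincipalIdealRing.isMaximal_of_irreducible hz.irreducible
  let _ := Ideal.Quotient.field (Ideal.span {z})
  have hle : Ideal.span {z} ≤ Ideal.comap ι I := by
    rw [Ideal.span_singleton_le_iff_mem, Ideal.mem_comap]
    exact h
  let f : (GaussianInt ⧸ Ideal.span {z}) →+* (𝓞 K ⧸ I) := Ideal.quotientMap I ι hle
  have hnt : Nontrivial (𝓞 K ⧸ I) := Ideal.Quotient.nontrivial_iff.2 hI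
  have hIb : I ≠ ⊥ := by
    rintro rfl
    rw [Ideal.mem_bot] at h
    exact hz.ne_zero (iota_inj ι (by rw [h, map_zero]))
  have hfin : Finite (𝓞 K ⧸ I) := Ideal.finiteQuotientOfFreeOfNeBot I hIb
  have hfin2 : Finite (GaussianInt ⧸ Ideal.span {z}) := Finite.of_injective f f.injective
  let _ : Algebra (GaussianInt ⧸ Ideal.span {z}) (𝓞 K ⧸ I) := f.toAlgebra
  have hft : Fintype (𝓞 K ⧸ I) := Fintype.ofFinite _
  have hft2 : Fintype (GaussianInt ⧸ Ideal.span {z}) := Fintype.ofFinite _
  have h1 := Module.card_eq_pow_finrank (K := GaussianInt ⧸ Ideal.span {z}) (V := 𝓞 K ⧸ I)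
  rw [← Nat.card_eq_fintype_card, ← Nat.card_eq_fintype_card, ← absNorm_card] at h1
  refine ⟨_, ?_, h1⟩
  intro h0
  rw [h0, pow_zero, Ideal.absNorm_eq_one_iff] at h1
  exact hI h1

theorem qn_gt (ι : GaussianInt →+* 𝓞 K) (hK : Module.finrank ℚ K = 4) {z : GaussianInt}
    (hz : Prime z) : 1 < qn z := by
  have h1 := absNorm_span ι hK z
  have hne : Ideal.span {ι z} ≠ (⊥ : Ideal (𝓞 K)) := by
    rw [Ne, Ideal.span_singleton_eq_bot]
    intro h
    exact hz.ne_zero (iota_inj ι (by rw [h, map_zero]))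
  have h2 : Ideal.absNorm (Ideal.span {ι z}) ≠ 0 := by
    rw [Ne, Ideal.absNorm_eq_zero_iff]
    exact hne
  have h3 : qn z ≠ 1 := by
    unfold qn
    intro h
    rw [Nat.card_eq_one_iff_unique] at h
    have := h.1
    have hmax : (Ideal.span {z}).IsMaximal :=
      PrincipalIdealRing.isMaximal_of_irreducible hz.irreducible
    exact hmax.ne_top (Ideal.Quotient.subsingleton_iff.1 this)
  have h4 : qn z ≠ 0 := by
    intro h
    rw [h] at h1
    exact h2 h1
  omega

theorem eq_of_norm {I J : Ideal (𝓞 K)} (h : I ≤ J) (hn : Ideal.absNorm I = Ideal.absNorm J)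
    (h0 : Ideal.absNorm I ≠ 0) : I = J := by
  obtain ⟨L, hL⟩ := Ideal.dvd_iff_le.2 h
  have h1 : Ideal.absNorm J * Ideal.absNorm L = Ideal.absNorm J * 1 := by
    rw [← map_mul, ← hL, hn, mul_one]
  have h2 := Nat.eq_of_mul_eq_mul_left (Nat.pos_of_ne_zero (by rw [← hn]; exact h0)) h1
  rw [Ideal.absNorm_eq_one_iff] at h2
  rw [hL, h2, Ideal.mul_top]

theorem mem_ne_bot {z : GaussianInt} (hz : Prime z) {I : Ideal (𝓞 K)} (h : ι z ∈ I) : I ≠ ⊥ := by
  rintro rfl
  rw [Ideal.mem_bot] at h
  exact hz.ne_zero (iota_inj ι (by rw [h, map_zero]))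

/-- ideals of norm `q` containing `z` -/
theorem uniq_of (hK : Module.finrank ℚ K = 4) {z : GaussianInt} (hz : Prime z) {I : Ideal (𝓞 K)}
    (h : ι z ∈ I) (hI : Ideal.absNorm I = qn z) :
    ∃ v : HeightOneSpectrum (𝓞 K), v.asIdeal = I ∧
      ∀ w : HeightOneSpectrum (𝓞 K), I ≤ w.asIdeal → w = v := by
  have hq := qn_gt ι hK hz
  have key : ∀ J : Ideal (𝓞 K), J ≠ ⊤ → I ≤ J → J = I := by
    intro J hJ hIJ
    obtain ⟨d, hd0, hd⟩ := absNorm_pow ι hz J (hIJ h) hJ
    have h1 : Ideal.absNorm J ∣ Ideal.absNorm I := Ideal.absNorm_dvd_absNorm_of_le hIJ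
    rw [hd, hI] at h1
    have h2 : qn z ^ d ∣ qn z ^ 1 := by rw [pow_one]; exact h1
    have h3 := (Nat.pow_dvd_pow_iff_le_right hq).1 h2
    have h4 : d = 1 := by omega
    rw [h4, pow_one] at hd
    exact (eq_of_norm hIJ (by rw [hI, hd]) (by rw [hI]; omega)).symm
  have hI1 : I ≠ ⊤ := by
    intro h1
    rw [h1, Ideal.absNorm_top] at hI
    omega
  obtain ⟨M, hM, hIM⟩ := Ideal.exists_le_maximal I hI1
  have hMI := key M hM.ne_top hIM
  refine ⟨⟨I, ?_, mem_ne_bot ι hz h⟩, rfl, ?_⟩
  · rw [← hMI]; exact hM.isPrime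
  · intro w hw
    exact HeightOneSpectrum.ext (key w.asIdeal w.isPrime.ne_top hw)

/-- ramified primes -/
theorem split0 (hK : Module.finrank ℚ K = 4) {z k k' : GaussianInt} {β : 𝓞 K} (hz : Prime z)
    (hβ : β ^ 2 = ι k) (hk : k = z * k') (hk' : ¬ z ∣ k') :
    ∃ v : HeightOneSpectrum (𝓞 K), (∀ w : HeightOneSpectrum (𝓞 K), ι z ∈ w.asIdeal ↔ w = v) ∧
      Ideal.absNorm v.asIdeal = qn z := by
  have hmem : ι z ∈ Ideal.span {ι z, β} := Ideal.subset_span (by simp)
  have hβ2 : β * β = ι z * ι k' := by rw [← pow_two, hβ, hk, map_mul]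
  have hsq : Ideal.span {ι z, β} * Ideal.span {ι z, β} = Ideal.span {ι z} := by
    rw [Ideal.span_pair_mul_span_pair]
    apply le_antisymm
    · rw [Ideal.span_le]
      intro x hx
      simp only [Set.mem_insert_iff, Set.mem_singleton_iff] at hx
      show x ∈ Ideal.span {ι z}
      rw [Ideal.mem_span_singleton]
      rcases hx with rfl | rfl | rfl | rfl
      · exact dvd_mul_right _ _
      · exact dvd_mul_right _ _
      · exact dvd_mul_left _ _
      · rw [hβ2]; exact dvd_mul_right _ _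
    · rw [Ideal.span_singleton_le_iff_mem]
      obtain ⟨u, w, huw⟩ := (hz.irreducible.coprime_iff_not_dvd).2 hk'
      have e : ι z = ι u * (ι z * ι z) + ι w * (β * β) := by
        have h1 : ι u * ι z + ι w * ι k' = 1 := by rw [← map_mul, ← map_mul, ← map_add, huw, map_one]
        linear_combination (-ι z) * h1 - ι w * hβ2
      have e2 : ι u * (ι z * ι z) + ι w * (β * β) ∈
          Ideal.span {ι z * ι z, ι z * β, β * ι z, β * β} := by
        refine Ideal.add_mem _ (Ideal.mul_mem_left _ _ ?_) (Ideal.mul_mem_left _ _ ?_)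
        · exact Ideal.subset_span (by simp)
        · exact Ideal.subset_span (by simp)
      rwa [← e] at e2
  have hn : Ideal.absNorm (Ideal.span {ι z, β}) = qn z := by
    have h1 : Ideal.absNorm (Ideal.span {ι z, β}) ^ 2 = qn z ^ 2 := by
      rw [pow_two, ← map_mul, hsq, absNorm_span ι hK z]
    exact Nat.pow_left_injective (n := 2) (by norm_num) h1
  obtain ⟨v, hv, hu⟩ := uniq_of ι hK hz hmem hn
  refine ⟨v, ?_, by rw [hv, hn]⟩
  intro w
  constructor
  · intro hw
    apply hu
    have h1 : β ∈ w.asIdeal := by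
      apply w.isPrime.mem_of_pow_mem 2
      rw [pow_two, hβ2]
      exact Ideal.mul_mem_right _ _ hw
    rw [Ideal.span_le]
    intro x hx
    simp only [Set.mem_insert_iff, Set.mem_singleton_iff] at hx
    rcases hx with rfl | rfl
    · exact hw
    · exact h1
  · rintro rfl
    rw [hv]
    exact hmem

/-- `β` is not in the field `ℚ(i)` -/
theorem no_rel {k : GaussianInt} {β : 𝓞 K} (hβ : β ^ 2 = ι k) (hns : ¬ IsSquare k)
    {a b : GaussianInt} (h : ι a * β = ι b) : a = 0 := by
  by_contra ha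
  have h1 : ι (a ^ 2 * k) = ι (b ^ 2) := by
    rw [map_mul, map_pow, map_pow, ← hβ, ← h]
    ring
  have h2 := iota_inj ι h1
  have h3 : a ∣ b := by
    have h4 : a ^ 2 ∣ b ^ 2 := ⟨k, h2.symm⟩
    exact (IsIntegrallyClosed.pow_dvd_pow_iff (two_ne_zero)).1 h4
  obtain ⟨c, rfl⟩ := h3
  apply hns
  refine ⟨c, ?_⟩
  have h5 : a ^ 2 * k = a ^ 2 * (c * c) := by rw [h2]; ring
  exact mul_left_cancel₀ (pow_ne_zero 2 ha) h5

/-- `z` does not divide `β + c` -/
theorem not_dvd_add (hK : Module.finrank ℚ K = 4) {k : GaussianInt} {β : 𝓞 K}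
    (hβ : β ^ 2 = ι k) (hns : ¬ IsSquare k) {z c : GaussianInt} (h2c : ¬ z ∣ 2 * c) :
    ¬ ι z ∣ β + ι c := by
  rintro ⟨γ, hγ⟩
  obtain ⟨-, hq⟩ := rank2 ι hK
  obtain ⟨t, D, htD⟩ := hq γ
  have h1 : ι (z * t - 2 * c) * β = ι (z ^ 2 * D - c ^ 2 + k - (z * t - 2 * c) * c) := by
    simp only [map_sub, map_add, map_mul, map_pow, map_ofNat]
    linear_combination (ι z * ι t - (β + ι c + ι z * γ)) * hγ - ι z ^ 2 * htD + hβ
  have h2 := no_rel ι hβ hns h1
  exact h2c ⟨t, by linear_combination -h2⟩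

theorem mem_comap_iff {z : GaussianInt} (hz : Prime z) (I : Ideal (𝓞 K)) (h : ι z ∈ I) (hI : I ≠ ⊤)
    (a : GaussianInt) : ι a ∈ I ↔ z ∣ a := by
  constructor
  · intro ha
    by_contra hza
    obtain ⟨u, w, huw⟩ := (hz.irreducible.coprime_iff_not_dvd).2 hza
    apply hI
    rw [Ideal.eq_top_iff_one]
    have h1 : ι u * ι z + ι w * ι a = 1 := by rw [← map_mul, ← map_mul, ← map_add, huw, map_one]
    rw [← h1]
    exact I.add_mem (I.mul_mem_left _ h) (I.mul_mem_left _ ha)
  · rintro ⟨c, rfl⟩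
    rw [map_mul]
    exact I.mul_mem_right _ h

/-- split primes -/
theorem split1 (hK : Module.finrank ℚ K = 4) {z k c : GaussianInt} {β : 𝓞 K} (hz : Prime z)
    (h2 : ¬ z ∣ 2) (hβ : β ^ 2 = ι k) (hns : ¬ IsSquare k) (hc : z ∣ c ^ 2 - k) (hk : ¬ z ∣ k) :
    ∃ v v' : HeightOneSpectrum (𝓞 K), v ≠ v' ∧
      (∀ w : HeightOneSpectrum (𝓞 K), ι z ∈ w.asIdeal ↔ w = v ∨ w = v') ∧
      Ideal.absNorm v.asIdeal = qn z ∧ Ideal.absNorm v'.asIdeal = qn z := by
  have hzc : ¬ z ∣ c := by
    intro h
    apply hk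
    have h1 : k = c ^ 2 - (c ^ 2 - k) := by ring
    rw [h1]
    exact dvd_sub (dvd_pow h two_ne_zero) hc
  have h2c : ¬ z ∣ 2 * c := by
    intro h
    rcases hz.dvd_or_dvd h with h | h
    · exact h2 h
    · exact hzc h
  have hq := qn_gt ι hK hz
  obtain ⟨u, w, huw⟩ := (hz.irreducible.coprime_iff_not_dvd).2 h2c
  have huw' : ι u * ι z + ι w * (2 * ι c) = 1 := by
    rw [← map_ofNat ι 2, ← map_mul, ← map_mul, ← map_mul, ← map_add]
    rw [huw, map_one]
  obtain ⟨r, hr⟩ := hc
  have hr' : (β - ι c) * (β + ι c) = - (ι z * ι r) := by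
    have h3 : ι c ^ 2 - ι k = ι z * ι r := by rw [← map_pow, ← map_sub, hr, map_mul]
    linear_combination hβ - h3
  set I := Ideal.span {ι z, β - ι c} with hI
  set J := Ideal.span {ι z, β + ι c} with hJ
  have hzI : ι z ∈ I := Ideal.subset_span (by simp)
  have hzJ : ι z ∈ J := Ideal.subset_span (by simp)
  have hbI : β - ι c ∈ I := Ideal.subset_span (by simp)
  have hbJ : β + ι c ∈ J := Ideal.subset_span (by simp)
  have hprod : I * J = Ideal.span {ι z} := by
    rw [hI, hJ, Ideal.span_pair_mul_span_pair]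
    apply le_antisymm
    · rw [Ideal.span_le]
      intro x hx
      simp only [Set.mem_insert_iff, Set.mem_singleton_iff] at hx
      show x ∈ Ideal.span {ι z}
      rw [Ideal.mem_span_singleton]
      rcases hx with rfl | rfl | rfl | rfl
      · exact dvd_mul_right _ _
      · exact dvd_mul_right _ _
      · exact dvd_mul_left _ _
      · rw [hr']; exact (dvd_mul_right _ _).neg_right
    · rw [Ideal.span_singleton_le_iff_mem]
      have e : ι z = ι u * (ι z * ι z) + ι w * (ι z * (β + ι c)) - ι w * ((β - ι c) * ι z) := by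
        linear_combination (-ι z) * huw'
      have e2 : ι u * (ι z * ι z) + ι w * (ι z * (β + ι c)) - ι w * ((β - ι c) * ι z) ∈
          Ideal.span {ι z * ι z, ι z * (β + ι c), (β - ι c) * ι z, (β - ι c) * (β + ι c)} := by
        refine Ideal.sub_mem _ (Ideal.add_mem _ (Ideal.mul_mem_left _ _ ?_)
          (Ideal.mul_mem_left _ _ ?_)) (Ideal.mul_mem_left _ _ ?_)
        · exact Ideal.subset_span (by simp)
        · exact Ideal.subset_span (by simp)
        · exact Ideal.subset_span (by simp)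
      rwa [← e] at e2
  have hI1 : I ≠ ⊤ := by
    intro h
    rw [h, Ideal.top_mul] at hprod
    rw [hprod, Ideal.mem_span_singleton] at hbJ
    exact not_dvd_add ι hK hβ hns h2c hbJ
  have hJ1 : J ≠ ⊤ := by
    intro h
    rw [h, Ideal.mul_top] at hprod
    rw [hprod, Ideal.mem_span_singleton] at hbI
    have h3 : ¬ z ∣ 2 * (-c) := by
      intro h4
      apply h2c
      have : 2 * c = -(2 * (-c)) := by ring
      rw [this]
      exact (dvd_neg).2 h4
    refine not_dvd_add ι hK hβ hns h3 ?_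
    rw [map_neg, ← sub_eq_add_neg]
    exact hbI
  obtain ⟨d, hd0, hd⟩ := absNorm_pow ι hz I hzI hI1
  obtain ⟨d', hd0', hd'⟩ := absNorm_pow ι hz J hzJ hJ1
  have hdd : qn z ^ (d + d') = qn z ^ 2 := by
    rw [pow_add, ← hd, ← hd', ← map_mul, hprod, absNorm_span ι hK z]
  have h5 := Nat.pow_right_injective hq hdd
  have hd1 : d = 1 := by omega
  have hd1' : d' = 1 := by omega
  rw [hd1, pow_one] at hd
  rw [hd1', pow_one] at hd'
  obtain ⟨v, hv, hu⟩ := uniq_of ι hK hz hzI hd
  obtain ⟨v', hv', hu'⟩ := uniq_of ι hK hz hzJ hd'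
  refine ⟨v, v', ?_, ?_, by rw [hv, hd], by rw [hv', hd']⟩
  · intro h
    have h6 : I = J := by rw [← hv, ← hv', h]
    have h7 : ι (2 * c) ∈ I := by
      have h8 : ι (2 * c) = (β + ι c) - (β - ι c) := by
        rw [map_mul, map_ofNat]; ring
      rw [h8]
      refine I.sub_mem ?_ hbI
      rw [h6]; exact hbJ
    rw [mem_comap_iff ι hz I hzI hI1] at h7
    exact h2c h7
  · intro w
    constructor
    · intro hw
      have h6 : (β - ι c) * (β + ι c) ∈ w.asIdeal := by
        rw [hr']
        exact w.asIdeal.neg_mem (w.asIdeal.mul_mem_right _ hw)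
      rcases w.isPrime.mem_or_mem h6 with h7 | h7
      · left
        apply hu
        rw [hI, Ideal.span_le]
        intro x hx
        simp only [Set.mem_insert_iff, Set.mem_singleton_iff] at hx
        rcases hx with rfl | rfl
        · exact hw
        · exact h7
      · right
        apply hu'
        rw [hJ, Ideal.span_le]
        intro x hx
        simp only [Set.mem_insert_iff, Set.mem_singleton_iff] at hx
        rcases hx with rfl | rfl
        · exact hw
        · exact h7
    · rintro (rfl | rfl)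
      · rw [hv]; exact hzI
      · rw [hv']; exact hzJ

/-- inert primes -/
theorem split2 (hK : Module.finrank ℚ K = 4) {z k : GaussianInt} {β : 𝓞 K} (hz : Prime z)
    (hβ : β ^ 2 = ι k) (hc : ¬ ∃ c : GaussianInt, z ∣ c ^ 2 - k) :
    ∃ v : HeightOneSpectrum (𝓞 K), (∀ w : HeightOneSpectrum (𝓞 K), ι z ∈ w.asIdeal ↔ w = v) ∧
      Ideal.absNorm v.asIdeal = qn z ^ 2 := by
  have hq := qn_gt ι hK hz
  have hspan := absNorm_span ι hK z
  have hmem : ι z ∈ Ideal.span {ι z} := Ideal.mem_span_singleton_self _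
  have h0 : Ideal.absNorm (Ideal.span {ι z}) ≠ 0 := by
    rw [hspan]
    exact pow_ne_zero 2 (by omega)
  have key : ∀ J : Ideal (𝓞 K), J ≠ ⊤ → ι z ∈ J → J = Ideal.span {ι z} := by
    intro J hJ hzJ
    have hle : Ideal.span {ι z} ≤ J := (Ideal.span_singleton_le_iff_mem _).2 hzJ
    obtain ⟨d, hd0, hd⟩ := absNorm_pow ι hz J hzJ hJ
    have h1 : Ideal.absNorm J ∣ Ideal.absNorm (Ideal.span {ι z}) :=
      Ideal.absNorm_dvd_absNorm_of_le hle
    rw [hd, hspan] at h1
    have h3 := (Nat.pow_dvd_pow_iff_le_right hq).1 h1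
    have h4 : d ≠ 1 := by
      intro h4
      rw [h4, pow_one] at hd
      -- the map to the residue ring is bijective
      have hle' : Ideal.span {z} ≤ Ideal.comap ι J := by
        rw [Ideal.span_singleton_le_iff_mem, Ideal.mem_comap]
        exact hzJ
      have hmax : (Ideal.span {z}).IsMaximal :=
        PrincipalIdealRing.isMaximal_of_irreducible hz.irreducible
      let _ := Ideal.Quotient.field (Ideal.span {z})
      let f : (GaussianInt ⧸ Ideal.span {z}) →+* (𝓞 K ⧸ J) := Ideal.quotientMap J ι hle'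
      have hnt : Nontrivial (𝓞 K ⧸ J) := Ideal.Quotient.nontrivial_iff.2 hJ
      have hfin : Finite (𝓞 K ⧸ J) := Ideal.finiteQuotientOfFreeOfNeBot J (mem_ne_bot ι hz hzJ)
      have hfin2 : Finite (GaussianInt ⧸ Ideal.span {z}) := Finite.of_injective f f.injective
      have hbij : Function.Bijective f := by
        rw [Nat.bijective_iff_injective_and_card]
        refine ⟨f.injective, ?_⟩
        rw [← absNorm_card, hd]
        rfl
      obtain ⟨y, hy⟩ := hbij.2 (Ideal.Quotient.mk J β)
      obtain ⟨c, rfl⟩ := Ideal.Quotient.mk_surjective y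
      have h5 : Ideal.Quotient.mk J (ι c) = Ideal.Quotient.mk J β := by
        rw [← hy]
        exact (Ideal.quotientMap_mk).symm
      rw [Ideal.Quotient.eq] at h5
      apply hc
      refine ⟨c, ?_⟩
      rw [← mem_comap_iff ι hz J hzJ hJ]
      have h6 : ι (c ^ 2 - k) = (ι c + β) * (ι c - β) := by
        rw [map_sub, map_pow, ← hβ]; ring
      rw [h6]
      exact J.mul_mem_left _ h5
    have h5 : d = 2 := by omega
    exact (eq_of_norm hle (by rw [hspan, hd, h5]) h0).symm
  have hI1 : Ideal.span {ι z} ≠ ⊤ := by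
    intro h1
    rw [h1, Ideal.absNorm_top] at hspan
    have : 1 < qn z ^ 2 := Nat.one_lt_pow two_ne_zero hq
    omega
  obtain ⟨M, hM, hIM⟩ := Ideal.exists_le_maximal _ hI1
  have hMI := key M hM.ne_top (hIM hmem)
  refine ⟨⟨Ideal.span {ι z}, ?_, mem_ne_bot ι hz hmem⟩, ?_, hspan⟩
  · rw [← hMI]; exact hM.isPrime
  · intro w
    constructor
    · intro hw
      exact HeightOneSpectrum.ext (key w.asIdeal w.isPrime.ne_top hw)
    · rintro rfl
      exact hmem

end

end Pool.Agent.N768.QI
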