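import Pool.Agent.N880.QI.Stm3

/-!
Project QI, leaf EC: elementary facts on the residue symbol.
-/

set_option autoImplicit false

namespace Pool.Agent.N768.QI

open Pool.Agent.N880.QI (nz sy Att)

theorem sq_split : ∀ (n : ℕ) (m : GaussianInt), m.norm.natAbs = n → m ≠ 0 →
    ∃ k b : GaussianInt, Squarefree k ∧ b ≠ 0 ∧ m = k * b ^ 2 := by
  intro n
  induction n using Nat.strong_induction_on with
  | _ n ih =>
    intro m hm hm0
    by_cases hs : Squarefree m
    · exact ⟨m, 1, hs, one_ne_zero, by ring⟩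
    · unfold Squarefree at hs
      push Not at hs
      obtain ⟨x, ⟨m', hm'⟩, hx⟩ := hs
      have hx0 : x ≠ 0 := by
        rintro rfl
        apply hm0
        rw [hm']; ring
      have hm'0 : m' ≠ 0 := by
        rintro rfl
        apply hm0
        rw [hm']; ring
      have h1 : m.norm.natAbs = x.norm.natAbs * x.norm.natAbs * m'.norm.natAbs := by
        rw [hm', Zsqrtd.norm_mul, Zsqrtd.norm_mul, Int.natAbs_mul, Int.natAbs_mul]
      have h2 : x.norm.natAbs ≠ 1 := fun h => hx (Zsqrtd.norm_eq_one_iff.1 h)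
      have h3 : x.norm.natAbs ≠ 0 := fun h =>
        hx0 (GaussianInt.norm_eq_zero.1 (Int.natAbs_eq_zero.1 h))
      have h4 : m'.norm.natAbs ≠ 0 := fun h =>
        hm'0 (GaussianInt.norm_eq_zero.1 (Int.natAbs_eq_zero.1 h))
      have h5 : m'.norm.natAbs < n := by
        rw [← hm, h1]
        have h6 : 1 < x.norm.natAbs := by omega
        have h7 : 1 < x.norm.natAbs * x.norm.natAbs := by
          calc 1 < x.norm.natAbs := h6
            _ = x.norm.natAbs * 1 := (mul_one _).symm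
            _ ≤ x.norm.natAbs * x.norm.natAbs := Nat.mul_le_mul_left _ h6.le
        calc m'.norm.natAbs = 1 * m'.norm.natAbs := (one_mul _).symm
          _ < x.norm.natAbs * x.norm.natAbs * m'.norm.natAbs :=
            Nat.mul_lt_mul_of_pos_right h7 (Nat.pos_of_ne_zero h4)
      obtain ⟨k, b, hk, hb, hkb⟩ := ih _ h5 m' rfl hm'0
      exact ⟨k, b * x, hk, mul_ne_zero hb hx0, by rw [hm', hkb]; ring⟩

theorem sy_zero {m π : GaussianInt} (h : π ∣ m) : sy m π = 0 := by
  unfold sy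
  rw [if_pos h]

theorem sy_one {m π : GaussianInt} (h : ¬ π ∣ m) (h2 : ∃ b : GaussianInt, π ∣ b ^ 2 - m) :
    sy m π = 1 := by
  unfold sy
  rw [if_neg h, if_pos h2]

theorem sy_neg {m π : GaussianInt} (h : ¬ π ∣ m) (h2 : ¬ ∃ b : GaussianInt, π ∣ b ^ 2 - m) :
    sy m π = -1 := by
  unfold sy
  rw [if_neg h, if_neg h2]

theorem sy_congr {m π m' π' : GaussianInt} (h : π ∣ m ↔ π' ∣ m')
    (h2 : (∃ b : GaussianInt, π ∣ b ^ 2 - m) ↔ ∃ b : GaussianInt, π' ∣ b ^ 2 - m') :
    sy m π = sy m' π' := by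
  by_cases h3 : π ∣ m
  · rw [sy_zero h3, sy_zero (h.1 h3)]
  · by_cases h4 : ∃ b : GaussianInt, π ∣ b ^ 2 - m
    · rw [sy_one h3 h4, sy_one (fun h5 => h3 (h.2 h5)) (h2.1 h4)]
    · rw [sy_neg h3 h4, sy_neg (fun h5 => h3 (h.2 h5)) (fun h5 => h4 (h2.2 h5))]

theorem sy_mul_sq {π k b : GaussianInt} (hπ : Prime π) (hb : ¬ π ∣ b) :
    sy (k * b ^ 2) π = sy k π := by
  have h1 : π ∣ k * b ^ 2 ↔ π ∣ k := by
    constructor
    · intro h
      rcases hπ.dvd_or_dvd h with h | h
      · exact h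
      · exact absurd (hπ.dvd_of_dvd_pow h) hb
    · intro h; exact h.mul_right _
  have h2 : (∃ c : GaussianInt, π ∣ c ^ 2 - k * b ^ 2) ↔ ∃ c : GaussianInt, π ∣ c ^ 2 - k := by
    constructor
    · rintro ⟨c, t, ht⟩
      obtain ⟨u, w, huw⟩ := (hπ.irreducible.coprime_iff_not_dvd).2 hb
      -- `w b = 1 - u π`
      refine ⟨c * w, w ^ 2 * t + k * (- 2 * u + u ^ 2 * π), ?_⟩
      have h3 : w * b = 1 - u * π := by linear_combination huw
      have h4 : (w * b) ^ 2 = (1 - u * π) ^ 2 := by rw [h3]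
      linear_combination w ^ 2 * ht + k * h4
    · rintro ⟨c, t, ht⟩
      exact ⟨c * b, t * b ^ 2, by linear_combination b ^ 2 * ht⟩
  exact sy_congr h1 h2

theorem star_dvd_iff {a b : GaussianInt} : star a ∣ star b ↔ a ∣ b := by
  constructor
  · rintro ⟨c, hc⟩
    refine ⟨star c, ?_⟩
    rw [← star_star b, hc, star_mul, star_star, mul_comm]
  · rintro ⟨c, rfl⟩
    exact ⟨star c, by rw [star_mul, mul_comm]⟩

theorem sy_star (k π : GaussianInt) : sy (star k) (star π) = sy k π := by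
  have h2 : (∃ c : GaussianInt, star π ∣ c ^ 2 - star k) ↔ ∃ c : GaussianInt, π ∣ c ^ 2 - k := by
    constructor
    · rintro ⟨c, hc⟩
      refine ⟨star c, ?_⟩
      rw [← star_dvd_iff, star_sub, star_pow, star_star]
      exact hc
    · rintro ⟨c, hc⟩
      refine ⟨star c, ?_⟩
      rw [← star_dvd_iff, star_star, star_sub, star_pow, star_star, star_star]
      exact hc
  exact sy_congr star_dvd_iff h2

theorem nz_le_of_dvd {π b : GaussianInt} (hb : b ≠ 0) (h : π ∣ b) : nz π ≤ nz b := by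
  obtain ⟨c, rfl⟩ := h
  have hc : c ≠ 0 := right_ne_zero_of_mul hb
  unfold nz
  rw [Zsqrtd.norm_mul]
  have h1 := GaussianInt.norm_nonneg π
  have h2 : 0 < c.norm := GaussianInt.norm_pos.2 hc
  have h3 : π.norm ≤ π.norm * c.norm := by
    calc π.norm = π.norm * 1 := (mul_one _).symm
      _ ≤ π.norm * c.norm := mul_le_mul_of_nonneg_left (by omega) h1
  exact_mod_cast h3

theorem att_red {ψ₀ ψ : GaussianInt →* ℂ} {m k b : GaussianInt} (hm : m = k * b ^ 2) (hb : b ≠ 0)
    (h : Att ψ₀ m ψ) : Att ψ₀ k ψ := by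
  obtain ⟨B, hB⟩ := h
  refine ⟨max B (nz b + 1), fun π hπ h1 => ?_⟩
  have h2 : ¬ π ∣ b := by
    intro h3
    have h4 := nz_le_of_dvd hb h3
    have h5 := (le_max_right B (nz b + 1)).trans h1
    linarith
  rw [hB π hπ ((le_max_left _ _).trans h1), hm, sy_mul_sq hπ h2]

theorem squarefree_star {k : GaussianInt} (h : Squarefree k) : Squarefree (star k) := by
  intro x hx
  have h1 : star x * star x ∣ k := by
    rw [← star_dvd_iff, star_mul, star_star]
    exact hx
  have h2 := h _ h1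
  obtain ⟨u, hu⟩ := h2
  have h3 : x * star ((u⁻¹ : GaussianIntˣ) : GaussianInt) = 1 := by
    have h4 : star (star x * ((u⁻¹ : GaussianIntˣ) : GaussianInt)) = star 1 := by
      rw [← hu, Units.mul_inv]
    rw [star_mul, star_star, star_one, mul_comm] at h4
    exact h4
  exact IsUnit.of_mul_eq_one _ h3

/-- the square root of the squarefree part -/
theorem beta_exists {K : Type} [Field K] [NumberField K] (ι : GaussianInt →+* NumberField.RingOfIntegers K)
    (hι : Function.Injective ι) {m k b : GaussianInt} (hm : m = k * b ^ 2) (hb : b ≠ 0)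
    {α : NumberField.RingOfIntegers K} (hα : α ^ 2 = ι m) :
    ∃ β : NumberField.RingOfIntegers K, β ^ 2 = ι k := by
  have h1 : ι b ∣ α := by
    have h2 : ι b ^ 2 ∣ α ^ 2 := by
      rw [hα, hm, map_mul, map_pow]
      exact dvd_mul_left _ _
    exact (IsIntegrallyClosed.pow_dvd_pow_iff two_ne_zero).1 h2
  obtain ⟨β, rfl⟩ := h1
  refine ⟨β, ?_⟩
  have hb' : ι b ≠ 0 := fun h => hb (hι (by rw [h, map_zero]))
  apply mul_left_cancel₀ (pow_ne_zero 2 hb')
  rw [← mul_pow, hα, hm, map_mul, map_pow]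
  ring

end Pool.Agent.N768.QI
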