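import Pool.Agent.W164.RC.Bad
import Pool.Agent.N768.QI.Split
import Pool.Agent.N768.QI.Sym
import Pool.Agent.N768.QI.Char

/-!
Project QI, leaf EC: the local factors.
-/

set_option autoImplicit false

open NumberField IsDedekindDomain Complex
open H385 (ZI nrm)
open Pool.Agent.H304R3.HK (tc HC psi LH psi_apply tc_ne_zero tc_star_mul uh_psi goodH)
open Pool.Agent.H921R2.TatePole (below nm nm_eq nm_summable two_le_nm)
open Pool.Agent.H82R3.EK (below_eq_of_mem factor_sub_bound)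
open Pool.Agent.W164.RC
open Pool.Agent.N880.QI (sy exc)

namespace Pool.Agent.N768.QI

theorem ndvd {p : ℕ} (hp : p.Prime) (h2 : p ≠ 2) {z : ZI} (hz : z ∈ Ip p) {c : ZI}
    (hc : nrm c ∣ 8) : ¬ z ∣ c := by
  rintro ⟨w, rfl⟩
  have h3 := (Ip_spec hp hz).2.2.1
  have h4 : nrm z ∣ nrm (z * w) := by
    unfold nrm
    rw [Zsqrtd.norm_mul, Int.natAbs_mul]
    exact dvd_mul_right _ _
  have h5 : p ∣ 2 ^ 3 := by
    have h6 : p ∣ nrm z := by rw [h3]; exact dvd_pow_self p (dg_pos p)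
    exact (h6.trans h4).trans hc
  exact h2 ((Nat.prime_dvd_prime_iff_eq hp Nat.prime_two).1 (hp.dvd_of_dvd_pow h5))

theorem qn_eq (z : ZI) : qn z = nrm z := H385.H10.card_RQ z

section
variable {K : Type} [Field K] [NumberField K] (ι : ZI →+* 𝓞 K)

theorem below_of_mem {p : Nat.Primes} {z : ZI} (hz : z ∈ Ip p) (v : HeightOneSpectrum (𝓞 K))
    (h : ι z ∈ v.asIdeal) : below v = p := by
  apply below_eq_of_mem
  obtain ⟨c, hc⟩ := (Ip_spec p.2 hz).2.2.2
  have h7 : (((p : ℕ)) : 𝓞 K) = ι z * ι c := by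
    rw [← map_mul, ← hc, map_natCast]
  rw [h7]
  exact v.asIdeal.mul_mem_right _ h

theorem local_z (hK : Module.finrank ℚ K = 4) {k : ZI} {β : 𝓞 K} (hk : Squarefree k)
    (hns : ¬ IsSquare k) (hβ : β ^ 2 = ι k) {p : Nat.Primes} (h2 : (p : ℕ) ≠ 2) {z : ZI}
    (hz : z ∈ Ip p) (S : Finset (HeightOneSpectrum (𝓞 K))) (hS : ∀ v, v ∈ S ↔ ι z ∈ v.asIdeal)
    (s : ℂ) : ∏ v ∈ S, eulerFactor s v =
      ((1 - YY p s z) * (1 - ((sy k z : ℝ) : ℂ) * YY p s z) *
        ((1 - YY p s (star z)) * (1 - ((sy k z : ℝ) : ℂ) * YY p s (star z))))⁻¹ := by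
  classical
  obtain ⟨hprim, hzp, hzn, -⟩ := Ip_spec p.2 hz
  have hz2 : ¬ z ∣ 2 := ndvd p.2 h2 hz (by decide)
  by_cases h3 : z ∣ k
  · obtain ⟨k', hk'⟩ := h3
    have h4 : ¬ z ∣ k' := by
      rintro ⟨w, rfl⟩
      exact hzp.not_isUnit (hk z ⟨w, by rw [hk']; ring⟩)
    obtain ⟨v, hv, hn⟩ := split0 ι hK hzp hβ hk' h4
    have hSv : S = {v} := by
      ext w
      rw [hS, hv, Finset.mem_singleton]
    rw [hSv, Finset.prod_singleton, sy_zero ⟨k', hk'⟩]
    have hmem : ι z ∈ v.asIdeal := (hv v).2 rfl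
    rw [eulerFactor_z h2 hz v (below_of_mem ι hz v hmem) 1 (by rw [hn, qn_eq, pow_one]) s]
    push_cast
    congr 1
    ring
  · by_cases h4 : ∃ c : ZI, z ∣ c ^ 2 - k
    · obtain ⟨c, hc⟩ := h4
      obtain ⟨v, v', hne, hv, hn, hn'⟩ := split1 ι hK hzp hz2 hβ hns hc h3
      have hSv : S = {v, v'} := by
        ext w
        rw [hS, hv, Finset.mem_insert, Finset.mem_singleton]
      rw [hSv, Finset.prod_pair hne, sy_one h3 ⟨c, hc⟩]
      have hmem : ι z ∈ v.asIdeal := (hv v).2 (Or.inl rfl)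
      have hmem' : ι z ∈ v'.asIdeal := (hv v').2 (Or.inr rfl)
      rw [eulerFactor_z h2 hz v (below_of_mem ι hz v hmem) 1 (by rw [hn, qn_eq, pow_one]) s,
        eulerFactor_z h2 hz v' (below_of_mem ι hz v' hmem') 1 (by rw [hn', qn_eq, pow_one]) s,
        ← mul_inv]
      push_cast
      congr 1
      ring
    · obtain ⟨v, hv, hn⟩ := split2 ι hK hzp hβ h4
      have hSv : S = {v} := by
        ext w
        rw [hS, hv, Finset.mem_singleton]
      rw [hSv, Finset.prod_singleton, sy_neg h3 h4]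
      have hmem : ι z ∈ v.asIdeal := (hv v).2 rfl
      rw [eulerFactor_z h2 hz v (below_of_mem ι hz v hmem) 2 (by rw [hn, qn_eq]) s]
      push_cast
      congr 1
      ring

theorem mem_exc_iff (v : HeightOneSpectrum (𝓞 K)) : v ∈ exc K ↔ (below v : ℕ) = 2 := by
  constructor
  · intro h
    have h1 : below v = (⟨2, Nat.prime_two⟩ : Nat.Primes) := by
      apply below_eq_of_mem
      exact_mod_cast h
    rw [h1]
  · intro h
    have h3 := (nm_eq v).2.2
    rw [h] at h3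
    show (2 : 𝓞 K) ∈ v.asIdeal
    exact_mod_cast h3

/-- product over the places above `p` -/
theorem fiber (hK : Module.finrank ℚ K = 4) {k : ZI} {β : 𝓞 K} (hk : Squarefree k)
    (hns : ¬ IsSquare k) (hβ : β ^ 2 = ι k) (p : Nat.Primes) (s : ℂ) :
    (open Classical in ∏ v : {v : HeightOneSpectrum (𝓞 K) // below v = p},
      (if v.1 ∈ exc K then 1 else eulerFactor s v.1)) =
      if (p : ℕ) = 2 then 1 else ∏ z ∈ Ip p,
        ((1 - YY p s z) * (1 - ((sy k z : ℝ) : ℂ) * YY p s z) *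
        ((1 - YY p s (star z)) * (1 - ((sy k z : ℝ) : ℂ) * YY p s (star z))))⁻¹ := by
  classical
  split_ifs with hp2
  · apply Finset.prod_eq_one
    rintro ⟨v, hv⟩ _
    rw [if_pos]
    rw [mem_exc_iff, hv, hp2]
  · have h1 : ∀ v ∈ (Finset.univ : Finset {v : HeightOneSpectrum (𝓞 K) // below v = p}),
        (if v.1 ∈ exc K then 1 else eulerFactor s v.1) = eulerFactor s v.1 := by
      rintro ⟨v, hv⟩ _
      rw [if_neg]
      rw [mem_exc_iff, hv]
      exact hp2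
    rw [Finset.prod_congr rfl h1]
    have hU : (Finset.univ : Finset {v : HeightOneSpectrum (𝓞 K) // below v = p}) =
        (Ip p).biUnion (fun z =>
          (Finset.univ : Finset {v : HeightOneSpectrum (𝓞 K) // below v = p}).filter
            (fun v => ι z ∈ v.1.asIdeal)) := by
      ext v
      simp only [Finset.mem_filter, Finset.mem_univ, true_and, Finset.mem_biUnion, true_iff]
      have h4 := (nm_eq v.1).2.2
      rw [v.2] at h4
      have := v.1.isPrime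
      exact Ip_exists p.2 hp2 ι v.1.asIdeal h4
    rw [hU, Finset.prod_biUnion]
    · refine Finset.prod_congr rfl fun z hz => ?_
      rw [← local_z ι hK hk hns hβ hp2 hz
        (((Finset.univ : Finset {v : HeightOneSpectrum (𝓞 K) // below v = p}).filter
            (fun v => ι z ∈ v.1.asIdeal)).image (fun v => v.1)) ?_ s]
      · rw [Finset.prod_image]
        intro a _ b _ hab
        exact Subtype.ext hab
      · intro v
        rw [Finset.mem_image]
        constructor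
        · rintro ⟨w, hw, rfl⟩
          exact (Finset.mem_filter.1 hw).2
        · intro hv
          exact ⟨⟨v, below_of_mem ι hz v hv⟩, Finset.mem_filter.2 ⟨Finset.mem_univ _, hv⟩, rfl⟩
    · intro z hz w hw hzw
      rw [Function.onFun, Finset.disjoint_left]
      intro v hv hv'
      rw [Finset.mem_filter] at hv hv'
      exact not_mem_both (Ip_coprime p.2 (Finset.mem_coe.1 hz) (Finset.mem_coe.1 hw) hzw) hv.2 hv'.2

end

/-- the local factor in terms of `Y` -/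
theorem psi_YY' (ψ : ZI →* ℂ) {p : ℕ} (hp : p.Prime) {z : ZI} (hz : z ∈ Ip p) (s : ℂ) :
    psi ψ z * ((p : ℂ) ^ (-(s - 1 / 2))) ^ dg p = ψ z * YY p s z := by
  obtain ⟨-, hzp, h3, -⟩ := Ip_spec hp hz
  rw [psi_apply ψ hzp.ne_zero]
  unfold YY
  have hp0 : (p : ℂ) ≠ 0 := Nat.cast_ne_zero.2 hp.ne_zero
  have hpr : (0 : ℝ) < p := by exact_mod_cast hp.pos
  have e1 : (p : ℂ) ^ (-(s - 1 / 2)) = (p : ℂ) ^ (-s) * (p : ℂ) ^ ((1 / 2 : ℂ)) := by
    rw [← Complex.cpow_add _ _ hp0]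
    congr 1
    ring
  have e2 : ((‖tc z‖ : ℝ) : ℂ) = ((p : ℂ) ^ ((1 / 2 : ℂ))) ^ dg p := by
    have h1 : ‖tc z‖ = ((p : ℝ) ^ (1 / 2 : ℝ)) ^ dg p := by
      have h2 := tc_star_mul z
      have h4 : ((z.norm : ℤ) : ℝ) = (p : ℝ) ^ dg p := by
        have h5 : z.norm = ((nrm z : ℕ) : ℤ) := (GaussianInt.abs_natCast_norm z).symm
        rw [h5, h3]
        push_cast
        rfl
      rw [h4] at h2
      have h6 : ((((p : ℝ) ^ (1 / 2 : ℝ)) ^ dg p)) ^ 2 = (p : ℝ) ^ dg p := by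
        rw [← pow_mul, mul_comm, pow_mul, ← Real.rpow_natCast ((p : ℝ) ^ (1 / 2 : ℝ)) 2,
          ← Real.rpow_mul hpr.le]
        norm_num
      rw [← h6] at h2
      exact (pow_left_inj₀ (norm_nonneg _) (by positivity) (by norm_num)).1 h2
    rw [h1, Complex.ofReal_pow, Complex.ofReal_cpow hpr.le]
    push_cast
    rfl
  have e3 : ((‖tc z‖ : ℝ) : ℂ) ≠ 0 := by
    rw [Complex.ofReal_ne_zero, norm_ne_zero_iff]
    exact tc_ne_zero hzp.ne_zero
  rw [e1, mul_pow, ← e2]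
  field_simp

theorem epf_val {ψ : ZI →* ℂ} {p : ℕ} (hp : p.Prime) (h2 : p ≠ 2) (c : ZI → ℂ)
    (hc : ∀ z ∈ Ip p, ψ z = c z) (s : ℂ) :
    epf two2 (psi ψ) (s - 1 / 2) p = ∏ z ∈ Ip p, (1 - c z * YY p s z)⁻¹ := by
  classical
  unfold epf
  rw [if_neg h2, Finset.filter_true_of_mem (fun z hz => ndvd hp h2 hz (by decide))]
  refine Finset.prod_congr rfl fun z hz => ?_
  rw [psi_YY' ψ hp hz s, hc z hz]

theorem prod_star {p : ℕ} (hp : p.Prime) (f : ZI → ℂ) :
    ∏ z ∈ Ip p, f (star z) = ∏ z ∈ Ip p, f z :=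
  Finset.prod_nbij' star star (fun _ hz => star_mem_Ip hp hz) (fun _ hz => star_mem_Ip hp hz)
    (fun z _ => star_star z) (fun z _ => star_star z) (fun _ _ => rfl)

/-- the Hecke side at `p` -/
theorem hecke_side {ψ₀ ψ ψ' : ZI →* ℂ} {k : ZI} {p : ℕ} (hp : p.Prime)
    (h0 : p ≠ 2 → ∀ z ∈ Ip p, ψ₀ z = 1)
    (h1 : p ≠ 2 → ∀ z ∈ Ip p, ψ z = ((sy k z : ℝ) : ℂ))
    (h1' : p ≠ 2 → ∀ z ∈ Ip p, ψ' z = ((sy (star k) z : ℝ) : ℂ)) (s : ℂ) :
    epf two2 (psi ψ₀) (s - 1 / 2) p * epf two2 (psi ψ₀) (s - 1 / 2) p *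
      epf two2 (psi ψ) (s - 1 / 2) p * epf two2 (psi ψ') (s - 1 / 2) p =
      if p = 2 then 1 else ∏ z ∈ Ip p,
        ((1 - YY p s z) * (1 - ((sy k z : ℝ) : ℂ) * YY p s z) *
        ((1 - YY p s (star z)) * (1 - ((sy k z : ℝ) : ℂ) * YY p s (star z))))⁻¹ := by
  split_ifs with hp2
  · unfold epf
    simp only [if_pos hp2]
    ring
  · have e0 := epf_val hp hp2 (fun _ => 1) (h0 hp2) s
    have e1 := epf_val hp hp2 (fun z => ((sy k z : ℝ) : ℂ)) (h1 hp2) s
    have e2 := epf_val hp hp2 (fun z => ((sy (star k) z : ℝ) : ℂ)) (h1' hp2) s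
    have e3 : ∏ z ∈ Ip p, (1 - ((sy (star k) z : ℝ) : ℂ) * YY p s z)⁻¹ =
        ∏ z ∈ Ip p, (1 - ((sy k z : ℝ) : ℂ) * YY p s (star z))⁻¹ := by
      rw [← prod_star hp (fun z => (1 - ((sy (star k) z : ℝ) : ℂ) * YY p s z)⁻¹)]
      refine Finset.prod_congr rfl fun z _ => ?_
      rw [sy_star]
    have e4 : ∏ z ∈ Ip p, (1 - 1 * YY p s z)⁻¹ = ∏ z ∈ Ip p, (1 - YY p s (star z))⁻¹ := by
      rw [← prod_star hp (fun z => (1 - 1 * YY p s z)⁻¹)]
      refine Finset.prod_congr rfl fun z _ => ?_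
      rw [one_mul]
    have e5 : ∏ z ∈ Ip p, (1 - 1 * YY p s z)⁻¹ = ∏ z ∈ Ip p, (1 - YY p s z)⁻¹ := by
      refine Finset.prod_congr rfl fun z _ => ?_
      rw [one_mul]
    rw [e0, e1, e2, e3]
    simp only [mul_inv]
    rw [Finset.prod_mul_distrib, Finset.prod_mul_distrib, Finset.prod_mul_distrib]
    nth_rewrite 1 [e5]
    rw [e4]
    ring

end Pool.Agent.N768.QI
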